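import Pool.Agent.Lib_MP_0f9677_co.Final

/-!
# MP_0f9677_co, question Q1: the value of `f n` for every `n`
-/

namespace Pool.Agent.Results.MP_0f9677_co.Q1

open Pool.Agent.Lib_MP_0f9677_co

/-- For every `n ≥ 1`, `f n` is the largest value of `Mad(G) * Mad(complement of G)` over the graphs
`G` on `n` vertices, and `f n = (x - 1) (n (n - 1) - x (x - 1)) / n` where
`x = ⌈(1 + √(1 + 12 n (n - 1))) / 6⌉`. -/
theorem result : ∀ n : ℕ, 1 ≤ n → IsGreatest (products n) (f n) ∧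
    ∀ x : ℕ, x = ⌈(1 + √(1 + 12 * (n : ℝ) * ((n : ℝ) - 1))) / 6⌉₊ →
      f n = ((x : ℝ) - 1) * ((n : ℝ) * ((n : ℝ) - 1) - (x : ℝ) * ((x : ℝ) - 1)) / n := by
  intro n hn
  refine ⟨(f_eq n hn).1, ?_⟩
  rintro x rfl
  exact (f_eq n hn).2

end Pool.Agent.Results.MP_0f9677_co.Q1
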