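import Pool.Agent.Lib_MP_0f9677_co.Final

/-!
# MP_0f9677_co, question Q2: a clique-type graph is optimal for every `n`
-/

namespace Pool.Agent.Results.MP_0f9677_co.Q2

open Pool.Agent.Lib_MP_0f9677_co

/-- For every `n ≥ 1` there is `x` with `1 ≤ x ≤ n` such that the clique-type graph `G_{n,x}`
attains the maximum `f n`. -/
theorem result : ∀ n : ℕ, 1 ≤ n → ∃ x : ℕ, 1 ≤ x ∧ x ≤ n ∧
    IsGreatest (products n) (Mad (cliqueType n x) * Mad (cliqueType n x)ᶜ) ∧
    Mad (cliqueType n x) * Mad (cliqueType n x)ᶜ = f n := by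
  intro n hn
  have h := f_eq n hn
  have e : Mad (cliqueType n (xopt n)) * Mad (cliqueType n (xopt n))ᶜ = f n := by
    rw [attained n hn, h.2]
  exact ⟨xopt n, one_le_xopt n, xopt_le n hn, e ▸ h.1, e⟩

end Pool.Agent.Results.MP_0f9677_co.Q2
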